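import Pool.Agent.H772R2.NS.Space3
import Pool.Agent.Helper793.Sob

/-!
Averages over balls.
-/

set_option autoImplicit false
set_option linter.unusedSectionVars false

open MeasureTheory Set Filter Topology Metric
open scoped InnerProductSpace ENNReal ContDiff NNReal Convolution

namespace Pool.Agent.Y303.CG

open H772R2.NS
open Pool.Agent.Helper793.Sob (lintegral_sq_le)

/-- the uniform distribution on the ball of radius `r` -/
noncomputable def nu (r : ℝ) : Measure E3 :=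
  (volume (ball (0 : E3) r))⁻¹ • volume.restrict (ball (0 : E3) r)

theorem nu_prob {r : ℝ} (hr : 0 < r) : IsProbabilityMeasure (nu r) := by
  constructor
  unfold nu
  rw [Measure.smul_apply, Measure.restrict_apply_univ, smul_eq_mul]
  exact ENNReal.inv_mul_cancel (measure_ball_pos volume _ hr).ne' measure_ball_lt_top.ne

/-- the average over balls -/
noncomputable def Av {X : Type} [NormedAddCommGroup X] [NormedSpace ℝ X] (r : ℝ) (f : E3 → X)
    (x : E3) : X := ∫ t, f (x - t) ∂(nu r)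

section general

variable {X : Type} [NormedAddCommGroup X] [NormedSpace ℝ X] {r : ℝ}

theorem Av_L2 (hr : 0 < r) {f : E3 → X} (hf : StronglyMeasurable f) :
    ∫⁻ x, ‖Av r f x‖ₑ ^ 2 ≤ ∫⁻ x, ‖f x‖ₑ ^ 2 := by
  have := nu_prob hr
  have hm : Measurable fun p : E3 × E3 => ‖f (p.1 - p.2)‖ₑ ^ 2 :=
    ((hf.comp_measurable (measurable_fst.sub measurable_snd)).enorm).pow_const 2
  calc ∫⁻ x, ‖Av r f x‖ₑ ^ 2 ≤ ∫⁻ x, ∫⁻ t, ‖f (x - t)‖ₑ ^ 2 ∂(nu r) := by
        refine lintegral_mono fun x => ?_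
        have h1 : ‖Av r f x‖ₑ ≤ ∫⁻ t, ‖f (x - t)‖ₑ ∂(nu r) := enorm_integral_le_lintegral_enorm _
        have h2 : Measurable fun t : E3 => ‖f (x - t)‖ₑ :=
          (hf.comp_measurable (measurable_const.sub measurable_id)).enorm
        exact (pow_le_pow_left' h1 2).trans (lintegral_sq_le h2.aemeasurable)
    _ = ∫⁻ t, ∫⁻ x, ‖f (x - t)‖ₑ ^ 2 ∂volume ∂(nu r) :=
        lintegral_lintegral_swap hm.aemeasurable
    _ = ∫⁻ t, ∫⁻ x, ‖f x‖ₑ ^ 2 ∂volume ∂(nu r) := by
        refine lintegral_congr fun t => ?_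
        exact lintegral_sub_right_eq_self (fun x => ‖f x‖ₑ ^ 2) t
    _ = ∫⁻ x, ‖f x‖ₑ ^ 2 := by simp

theorem Av_meas {f : E3 → X} (hf : StronglyMeasurable f) : StronglyMeasurable (Av r f) := by
  have h : StronglyMeasurable fun p : E3 × E3 => f (p.1 - p.2) :=
    hf.comp_measurable (measurable_fst.sub measurable_snd)
  have : SFinite (nu r) := by unfold nu; infer_instance
  exact h.integral_prod_right'

theorem Av_congr {f g : E3 → X} (h : f =ᵐ[volume] g) (x : E3) : Av r f x = Av r g x := by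
  unfold Av
  refine integral_congr_ae ?_
  have h1 : ∀ᵐ t : E3 ∂volume, f (x - t) = g (x - t) :=
    (Measure.measurePreserving_sub_left volume x).quasiMeasurePreserving.ae h
  have h2 : nu r ≪ volume := by
    unfold nu
    exact Measure.AbsolutelyContinuous.trans (Measure.smul_absolutelyContinuous)
      (Measure.restrict_le_self.absolutelyContinuous)
  exact h2.ae_le h1

end general


section smooth

variable {r : ℝ} {ψ : E3 → E3}

/-- the kernel -/
noncomputable def kr (r : ℝ) : E3 → ℝ :=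
  (ball (0 : E3) r).indicator fun _ => (volume (ball (0 : E3) r)).toReal⁻¹

theorem kr_int (r : ℝ) : Integrable (kr r) volume := by
  unfold kr
  rw [integrable_indicator_iff measurableSet_ball]
  exact integrableOn_const measure_ball_lt_top.ne

theorem kr_compact (r : ℝ) : HasCompactSupport (kr r) := by
  refine HasCompactSupport.intro (isCompact_closedBall (0 : E3) r) fun x hx => ?_
  unfold kr
  exact indicator_of_notMem (fun h => hx (ball_subset_closedBall h)) _

theorem int_nu {X : Type} [NormedAddCommGroup X] [NormedSpace ℝ X] (f : E3 → X) :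
    ∫ t, f t ∂(nu r) = ∫ t, kr r t • f t := by
  unfold nu
  rw [integral_smul_measure, ← integral_indicator measurableSet_ball, ← integral_smul]
  refine integral_congr_ae (Eventually.of_forall fun t => ?_)
  simp only [kr]
  by_cases h : t ∈ ball (0 : E3) r
  · rw [indicator_of_mem h, indicator_of_mem h, ENNReal.toReal_inv]
  · rw [indicator_of_notMem h, indicator_of_notMem h, smul_zero, zero_smul]

theorem Av_eq {X : Type} [NormedAddCommGroup X] [NormedSpace ℝ X] (f : E3 → X) :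
    Av r f = (kr r) ⋆[ContinuousLinearMap.lsmul ℝ ℝ, volume] f := by
  funext x
  rw [convolution_def]
  unfold Av
  rw [int_nu]
  rfl

theorem Av_smooth (hψ : ContDiff ℝ ∞ ψ) (hc : HasCompactSupport ψ) : ContDiff ℝ ∞ (Av r ψ) := by
  rw [Av_eq]
  exact hc.contDiff_convolution_right _ (kr_int r).locallyIntegrable hψ

theorem Av_compact (hc : HasCompactSupport ψ) : HasCompactSupport (Av r ψ) := by
  rw [Av_eq]
  exact (kr_compact r).convolution _ hc

theorem Av_fderiv (hψ : ContDiff ℝ ∞ ψ) (hc : HasCompactSupport ψ) (x : E3) :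
    fderiv ℝ (Av r ψ) x = Av r (fderiv ℝ ψ) x := by
  have h1 := hc.hasFDerivAt_convolution_right (ContinuousLinearMap.lsmul ℝ ℝ)
    (kr_int r).locallyIntegrable (μ := volume) (hψ.of_le (by simp)) x
  rw [← Av_eq] at h1
  rw [h1.fderiv, Av_eq, convolution_def, convolution_def]
  rfl

/-- the Jacobian matrix as a linear function of the derivative -/
noncomputable def JL : (E3 →L[ℝ] E3) →L[ℝ] M3 :=
  LinearMap.toContinuousLinearMap
    { toFun := fun L => WithLp.toLp 2 fun p : Fin 3 × Fin 3 => L (ev p.2) p.1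
      map_add' := fun L L' => by ext p; rfl
      map_smul' := fun c L => by ext p; rfl }

theorem JL_apply (φ : E3 → E3) (x : E3) : JL (fderiv ℝ φ x) = jac φ x := rfl

theorem int_comp {X : Type} [NormedAddCommGroup X] [NormedSpace ℝ X] {f : E3 → X}
    (hf : Continuous f) (hc : HasCompactSupport f) (x : E3) :
    Integrable (fun t => f (x - t)) (nu r) := by
  have h1 : Integrable f volume := hf.integrable_of_hasCompactSupport hc
  have h2 : Integrable (fun t => f (x - t)) volume := h1.comp_sub_left x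
  by_cases hr : 0 < r
  · unfold nu
    exact (h2.mono_measure Measure.restrict_le_self).smul_measure
      (ENNReal.inv_ne_top.2 (measure_ball_pos volume _ hr).ne')
  · have : nu r = 0 := by
      unfold nu
      rw [ball_eq_empty.2 (not_lt.1 hr)]
      simp
    rw [this]
    exact integrable_zero_measure

theorem jac_Av (hψ : ContDiff ℝ ∞ ψ) (hc : HasCompactSupport ψ) (x : E3) :
    jac (Av r ψ) x = Av r (jac ψ) x := by
  rw [← JL_apply, Av_fderiv hψ hc]
  unfold Av
  rw [← ContinuousLinearMap.integral_comp_comm]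
  · rfl
  · exact int_comp (hψ.continuous_fderiv (by simp)) (hc.fderiv (𝕜 := ℝ)) x

theorem test_sub_Av {Ω : Set E3} (h : IsTest Ω ψ) :
    IsTest (univ : Set E3) (ψ - Av r ψ) where
  smooth := h.smooth.sub (Av_smooth h.smooth h.compact)
  compact := h.compact.sub (Av_compact h.compact)
  supp := subset_univ _
  divfree := fun x => by
    have e : jac (ψ - Av r ψ) x = jac ψ x - Av r (jac ψ) x := by
      rw [← jac_Av h.smooth h.compact, ← JL_apply, ← JL_apply, ← JL_apply, ← map_sub]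
      congr 1
      exact fderiv_sub ((h.smooth.differentiable (by simp)) x)
        (((Av_smooth h.smooth h.compact).differentiable (by simp)) x)
    rw [e]
    have h1 : ∑ i, Av r (jac ψ) x (i, i) = 0 := by
      have h2 : ∀ i, Av r (jac ψ) x (i, i) = ∫ t, jac ψ (x - t) (i, i) ∂(nu r) := fun i => by
        have := (EuclideanSpace.proj (𝕜 := ℝ) (i, i) : M3 →L[ℝ] ℝ).integral_comp_comm
          (int_comp (r := r) (continuous_jac h.smooth) (hasCompactSupport_jac h.compact) x)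
        exact this.symm
      simp only [h2]
      rw [← integral_finset_sum]
      · simp only [h.divfree, integral_zero]
      · intro i _
        exact (EuclideanSpace.proj (𝕜 := ℝ) (i, i) : M3 →L[ℝ] ℝ).integrable_comp
          (int_comp (r := r) (continuous_jac h.smooth) (hasCompactSupport_jac h.compact) x)
    simp only [PiLp.sub_apply, Finset.sum_sub_distrib, h.divfree, h1, sub_zero]

theorem jac_sub_Av (hψ : ContDiff ℝ ∞ ψ) (hc : HasCompactSupport ψ) (x : E3) :
    jac (ψ - Av r ψ) x = jac ψ x - Av r (jac ψ) x := by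
  rw [← jac_Av hψ hc, ← JL_apply, ← JL_apply, ← JL_apply, ← map_sub]
  congr 1
  exact fderiv_sub ((hψ.differentiable (by simp)) x)
    (((Av_smooth hψ hc).differentiable (by simp)) x)

theorem trans_sq_le (hψ : ContDiff ℝ ∞ ψ) (w x : E3) :
    ‖ψ (x + w) - ψ x‖ₑ ^ 2 ≤
      ‖w‖ₑ ^ 2 * ∫⁻ t in Ioc (0 : ℝ) 1, ‖jac ψ (x + t • w)‖ₑ ^ 2 := by
  have hd : Continuous (fderiv ℝ ψ) := hψ.continuous_fderiv (by simp)
  have hj : Continuous (jac ψ) := continuous_jac hψ
  have hc : Continuous (fun t : ℝ => fderiv ℝ ψ (x + t • w) w) := by fun_prop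
  have h1 : ψ (x + w) - ψ x = ∫ t in (0 : ℝ)..1, fderiv ℝ ψ (x + t • w) w := by
    have h2 : ∀ t ∈ uIcc (0 : ℝ) 1, HasDerivAt (fun t : ℝ => ψ (x + t • w))
        (fderiv ℝ ψ (x + t • w) w) t := by
      intro t _
      have h3 : HasDerivAt (fun t : ℝ => x + t • w) w t := by
        simpa using ((hasDerivAt_id t).smul_const w).const_add x
      exact ((hψ.differentiable (by simp)) (x + t • w)).hasFDerivAt.comp_hasDerivAt t h3
    rw [intervalIntegral.integral_eq_sub_of_hasDerivAt h2 (hc.intervalIntegrable _ _)]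
    simp
  have hm : Measurable fun t : ℝ => ‖jac ψ (x + t • w)‖ₑ :=
    (hj.comp (by fun_prop : Continuous fun t : ℝ => x + t • w)).enorm.measurable
  rw [h1, intervalIntegral.integral_of_le (by norm_num)]
  have h4 : ‖∫ t in Ioc (0 : ℝ) 1, fderiv ℝ ψ (x + t • w) w‖ₑ ≤
      ‖w‖ₑ * ∫⁻ t in Ioc (0 : ℝ) 1, ‖jac ψ (x + t • w)‖ₑ := by
    refine (enorm_integral_le_lintegral_enorm _).trans ?_
    rw [← lintegral_const_mul _ hm]
    refine lintegral_mono fun t => ?_
    rw [← ofReal_norm, ← ofReal_norm, ← ofReal_norm, ← ENNReal.ofReal_mul (norm_nonneg _)]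
    refine ENNReal.ofReal_le_ofReal ?_
    calc ‖fderiv ℝ ψ (x + t • w) w‖ ≤ ‖fderiv ℝ ψ (x + t • w)‖ * ‖w‖ :=
          ContinuousLinearMap.le_opNorm _ _
      _ ≤ ‖jac ψ (x + t • w)‖ * ‖w‖ := by
          have := norm_fderiv_le_jac (φ := ψ) (x + t • w)
          gcongr
      _ = ‖w‖ * ‖jac ψ (x + t • w)‖ := mul_comm _ _
  have : IsProbabilityMeasure (volume.restrict (Ioc (0 : ℝ) 1)) := by
    constructor
    simp
  calc _ ≤ (‖w‖ₑ * ∫⁻ t in Ioc (0 : ℝ) 1, ‖jac ψ (x + t • w)‖ₑ) ^ 2 := pow_le_pow_left' h4 2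
    _ = ‖w‖ₑ ^ 2 * (∫⁻ t in Ioc (0 : ℝ) 1, ‖jac ψ (x + t • w)‖ₑ) ^ 2 := by rw [mul_pow]
    _ ≤ _ := by
      gcongr
      exact lintegral_sq_le hm.aemeasurable

theorem trans_L2 (hψ : ContDiff ℝ ∞ ψ) (w : E3) :
    ∫⁻ x, ‖ψ (x + w) - ψ x‖ₑ ^ 2 ≤ ‖w‖ₑ ^ 2 * ∫⁻ x, ‖jac ψ x‖ₑ ^ 2 := by
  have hj : Continuous (jac ψ) := continuous_jac hψ
  have hm : Measurable fun p : E3 × ℝ => ‖jac ψ (p.1 + p.2 • w)‖ₑ ^ 2 :=
    ((hj.comp (by fun_prop : Continuous fun p : E3 × ℝ => p.1 + p.2 • w)).enorm.measurable).pow_const 2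
  calc ∫⁻ x, ‖ψ (x + w) - ψ x‖ₑ ^ 2
      ≤ ∫⁻ x, ‖w‖ₑ ^ 2 * ∫⁻ t in Ioc (0 : ℝ) 1, ‖jac ψ (x + t • w)‖ₑ ^ 2 :=
        lintegral_mono fun x => trans_sq_le hψ w x
    _ = ‖w‖ₑ ^ 2 * ∫⁻ x, ∫⁻ t in Ioc (0 : ℝ) 1, ‖jac ψ (x + t • w)‖ₑ ^ 2 := by
        rw [lintegral_const_mul]
        exact hm.lintegral_prod_right'
    _ = ‖w‖ₑ ^ 2 * ∫⁻ t in Ioc (0 : ℝ) 1, ∫⁻ x, ‖jac ψ (x + t • w)‖ₑ ^ 2 := by
        rw [lintegral_lintegral_swap]
        exact hm.aemeasurable
    _ = ‖w‖ₑ ^ 2 * ∫⁻ t in Ioc (0 : ℝ) 1, ∫⁻ x, ‖jac ψ x‖ₑ ^ 2 := by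
        congr 1
        refine lintegral_congr fun t => ?_
        exact lintegral_add_right_eq_self (fun x => ‖jac ψ x‖ₑ ^ 2) (t • w)
    _ = _ := by simp

theorem Av_diff_L2 (hr : 0 < r) (hψ : ContDiff ℝ ∞ ψ) (hc : HasCompactSupport ψ) :
    ∫⁻ x, ‖ψ x - Av r ψ x‖ₑ ^ 2 ≤ ENNReal.ofReal r ^ 2 * ∫⁻ x, ‖jac ψ x‖ₑ ^ 2 := by
  have hp := nu_prob hr
  have hm : Measurable fun p : E3 × E3 => ‖ψ p.1 - ψ (p.1 - p.2)‖ₑ ^ 2 := by
    have : Continuous fun p : E3 × E3 => ψ p.1 - ψ (p.1 - p.2) :=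
      (hψ.continuous.comp continuous_fst).sub (hψ.continuous.comp (continuous_fst.sub
        continuous_snd))
    exact this.enorm.measurable.pow_const 2
  calc ∫⁻ x, ‖ψ x - Av r ψ x‖ₑ ^ 2 ≤ ∫⁻ x, ∫⁻ t, ‖ψ x - ψ (x - t)‖ₑ ^ 2 ∂(nu r) := by
        refine lintegral_mono fun x => ?_
        have e : ψ x - Av r ψ x = ∫ t, (ψ x - ψ (x - t)) ∂(nu r) := by
          rw [integral_sub (integrable_const _) (int_comp hψ.continuous hc x), integral_const]
          simp [Av]
        have h1 : ‖ψ x - Av r ψ x‖ₑ ≤ ∫⁻ t, ‖ψ x - ψ (x - t)‖ₑ ∂(nu r) := by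
          rw [e]
          exact enorm_integral_le_lintegral_enorm _
        have h2 : Measurable fun t : E3 => ‖ψ x - ψ (x - t)‖ₑ := by
          have : Continuous fun t : E3 => ψ x - ψ (x - t) :=
            continuous_const.sub (hψ.continuous.comp (continuous_const.sub continuous_id))
          exact this.enorm.measurable
        exact (pow_le_pow_left' h1 2).trans (lintegral_sq_le h2.aemeasurable)
    _ = ∫⁻ t, ∫⁻ x, ‖ψ x - ψ (x - t)‖ₑ ^ 2 ∂volume ∂(nu r) :=
        lintegral_lintegral_swap hm.aemeasurable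
    _ ≤ ∫⁻ _, ENNReal.ofReal r ^ 2 * ∫⁻ x, ‖jac ψ x‖ₑ ^ 2 ∂volume ∂(nu r) := by
        have hae : ∀ᵐ t ∂(nu r), t ∈ ball (0 : E3) r := by
          unfold nu
          refine Measure.ae_smul_measure ?_ _
          exact ae_restrict_mem measurableSet_ball
        refine lintegral_mono_ae ?_
        filter_upwards [hae] with t ht
        have e : ∫⁻ x, ‖ψ x - ψ (x - t)‖ₑ ^ 2 = ∫⁻ x, ‖ψ (x + t) - ψ x‖ₑ ^ 2 := by
          rw [← lintegral_add_right_eq_self (fun x => ‖ψ x - ψ (x - t)‖ₑ ^ 2) t]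
          refine lintegral_congr fun x => ?_
          rw [add_sub_cancel_right]
        rw [e]
        refine (trans_L2 hψ t).trans ?_
        have h1 : ‖t‖ₑ ≤ ENNReal.ofReal r := by
          rw [← ofReal_norm]
          exact ENNReal.ofReal_le_ofReal (mem_ball_zero_iff.1 ht).le
        gcongr
    _ = _ := by simp

end smooth

end Pool.Agent.Y303.CG
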