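import Pool.Agent.H772R2.NS.Pub

/-!
Public definition: averages over balls.
-/

set_option autoImplicit false

open MeasureTheory Set

namespace Pool.Agent.Y303.CG

open H772R2.NS.Pub

/-- The average of the field `G`, extended by zero outside `Ω`, over the ball with centre `x` and
radius `r`. -/
noncomputable def ballAvg {Ω : Set R3} (r : ℝ) (G : L2 Ω Mat) (x : R3) : Mat :=
  (volume (Metric.ball x r)).toReal⁻¹ • ∫ y in Metric.ball x r ∩ Ω, G.fn y

end Pool.Agent.Y303.CG
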