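import Pool.Agent.Y303.CG.Ser
import Pool.Agent.Y303.CG.PubDef
import Pool.Agent.Y303.RA.Pub

/-!
The averaged gradient before a first singular time, in terms of the public definitions.
-/

set_option autoImplicit false

open MeasureTheory Set Filter Topology
open scoped InnerProductSpace ENNReal ContDiff

namespace Pool.Agent.Y303.CG

open H772R2.NS H772R2.NS.Pub H772R2.NSR H772R2.NSG
open Pool.Agent.W795.TQ
open Pool.Agent.W795.ES (outer)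
open Pool.Agent.Y303.RA (first_mid SerrinOn)

theorem outer_eq (y : E3) : (outer y : M3) = tens y := by
  refine PiLp.ext fun r => ?_
  show ⟪(Pub.e r.1 : E3), (y : E3)⟫_ℝ * ⟪(Pub.e r.2 : E3), (y : E3)⟫_ℝ = _
  rw [inner_e, inner_e]
  rfl

theorem Av_ball {r : ℝ} {Ω : Set E3} (hm : MeasurableSet Ω) (f : E3 → M3) (x : E3) :
    Av r (Ω.indicator f) x
      = (volume (Metric.ball x r)).toReal⁻¹ • ∫ y in Metric.ball x r ∩ Ω, f y := by
  have e1 : Av r (Ω.indicator f) x = ∫ t, kr r (x - (x - t)) • Ω.indicator f (x - t) := by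
    unfold Av
    rw [int_nu]
    refine integral_congr_ae (Eventually.of_forall fun t => ?_)
    simp only [sub_sub_cancel]
  rw [e1, integral_sub_left_eq_self (fun y => kr r (x - y) • Ω.indicator f y) volume x,
    Measure.addHaar_ball_center volume x r, ← integral_smul,
    ← integral_indicator (Metric.isOpen_ball.measurableSet.inter hm)]
  refine integral_congr_ae (Eventually.of_forall fun y => ?_)
  simp only [kr]
  by_cases h1 : y ∈ Metric.ball x r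
  · have h1' : x - y ∈ Metric.ball (0 : E3) r := by
      rw [mem_ball_zero_iff, ← dist_eq_norm, dist_comm]
      exact h1
    rw [indicator_of_mem h1']
    by_cases h2 : y ∈ Ω
    · have h3 : y ∈ Metric.ball x r ∩ Ω := ⟨h1, h2⟩
      rw [indicator_of_mem h2, indicator_of_mem h3]
    · have h3 : y ∉ Metric.ball x r ∩ Ω := fun h => h2 h.2
      rw [indicator_of_notMem h2, indicator_of_notMem h3, smul_zero]
  · have h1' : x - y ∉ Metric.ball (0 : E3) r := by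
      rw [mem_ball_zero_iff, ← dist_eq_norm, dist_comm]
      exact h1
    have h3 : y ∉ Metric.ball x r ∩ Ω := fun h => h1 h.1
    rw [indicator_of_notMem h1', zero_smul, indicator_of_notMem h3]

theorem ballAvg_eq {r : ℝ} {Ω : Set E3} (hm : MeasurableSet Ω) (G : L2M Ω) (x : E3) :
    (ballAvg (Ω := (show Set R3 from Ω)) r G x : M3) = Av r (Ω.indicator (G : E3 → M3)) x := by
  rw [Av_ball hm]
  rfl

/-- the theorem on the averaged gradient, internal form -/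
theorem cg_mid (hit : S_iter) (hode : S_ode) (htp : S_dtp)
    (he1 : S_est1) (he2 : S_est2) (hloc : S_loc) (huni : S_uni) (hun : S_univ) :
    ∃ κ : ℝ, 0 < κ ∧
    ∀ (Ω : Set E3), IsOpen Ω → Bornology.IsBounded Ω → ∀ (ν T : ℝ), 0 < ν → 0 < T →
    ∀ (F F' : ℝ → L2M Ω), MemLp F' 2 (volume.restrict (Ioc 0 T)) →
    (∀ a b, 0 ≤ a → a ≤ b → b ≤ T → F b - F a = ∫ s in a..b, F' s) →
    ∀ (u : ℝ → L2V Ω) (z : ℝ → L2M Ω), AEStronglyMeasurable u (volume.restrict (Ioc 0 T)) →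
    (∀ᵐ t ∂(volume.restrict (Ioc 0 T)), (u t, z t) ∈ graphW Ω) →
    MemLp z 2 (volume.restrict (Ioc 0 T)) →
    (∀ φ : E3 → E3, H772R2.NS.IsTest Ω φ → ∀ t ∈ Icc 0 T,
      (∫ x in (show Set R3 from Ω), ⟪L2.fn (Ω := Ω) (E := R3) (u t) x, (φ : R3 → R3) x⟫_ℝ)
        - (∫ x in (show Set R3 from Ω), ⟪L2.fn (Ω := Ω) (E := R3) (u 0) x, (φ : R3 → R3) x⟫_ℝ)
      = ∫ s in (0 : ℝ)..t, Pub.rhs (Ω := Ω) ν (u s) (z s) (F s) φ) →
    (∀ t ∈ Icc 0 T, ‖u t‖ ^ 2 / 2 + ν * (∫ s in (0 : ℝ)..t, ‖z s‖ ^ 2)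
      ≤ ‖u 0‖ ^ 2 / 2 + ∫ s in (0 : ℝ)..t, ⟪F s, z s⟫_ℝ) →
    ∀ z0 : L2M Ω, (u 0, z0) ∈ graphW Ω →
    (∃ h : L2V Ω, ∀ φ : E3 → E3, H772R2.NS.IsTest Ω φ →
      Pub.rhs (Ω := Ω) ν (u 0) z0 (F 0) φ
        = ∫ x in (show Set R3 from Ω), ⟪L2.fn (Ω := Ω) (E := R3) h x, (φ : R3 → R3) x⟫_ℝ) →
    (∃ u' G1 G', IsStrong (show Set R3 from Ω) ν T F u u' G1 G') ∨
    ∃ τ ∈ Ioc 0 T, ∃ (u' : ℝ → L2V Ω) (G1 G' : ℝ → L2M Ω),
      (∀ t ∈ Ioo 0 τ, IsStrong (show Set R3 from Ω) ν t F u u' G1 G') ∧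
      (∀ s ∈ Ico 0 τ, ∀ (p q : ℝ≥0∞) (w : ℝ → R3 → ℝ), SerrinOn (show Set R3 from Ω) s τ p q w →
        ∃ M : ℝ, ∀ β r : ℝ → ℝ, (∀ t, 0 ≤ β t) →
        (∀ t ∈ Ioo s τ, IntegrableOn β (Ioc s t)) →
        (∀ t ∈ Ioo s τ, 0 < r t ∧ r t * ‖G1 t‖ ^ 2 ≤ κ * ν ^ 2) →
        (∀ᵐ t ∂(volume.restrict (Ioo s τ)), ∀ᵐ x ∂((volume : Measure R3).restrict Ω),
          -⟪ballAvg (Ω := (show Set R3 from Ω)) (r t) (G1 t) x,
              outer (L2.fn (Ω := Ω) (E := R3) (u' t) x)⟫_ℝ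
            ≤ (β t + (w t x) ^ 2) * ‖L2.fn (Ω := Ω) (E := R3) (u' t) x‖ ^ 2) →
        ∀ t0 < τ, ∃ t ∈ Ioo t0 τ, s < t ∧
          3 / 4 * Real.log (1 / (τ - t)) - M ≤ ∫ r in s..t, β r) := by
  obtain ⟨κ, hκ, hmid⟩ := first_mid hit hode htp he1 he2 hloc huni hun
  obtain ⟨c, hc, hU⟩ := hun
  refine ⟨1 / (8 * c ^ 2), by positivity, ?_⟩
  intro Ω hΩ hb ν T hν hT F F' hF1 hF u z hmeas hmem hz2 heqn hen z0 h0 hg
  have hm : MeasurableSet Ω := hΩ.measurableSet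
  rcases hmid Ω hΩ hb ν T hν hT F F' hF1 hF u z hmeas hmem hz2 heqn hen z0 h0 hg with
    h1 | ⟨C, Fr, τ, hτ, u1, y0, y1, h1, h2, h3⟩
  · exact Or.inl h1
  have hFH : FH T F F' := ⟨hF1, hF⟩
  have hκν : 0 < κ * ν ^ (5 / 4 : ℝ) := by positivity
  refine Or.inr ⟨τ, hτ, u1, y0, y1, h1, ?_⟩
  rintro s hs p q w ⟨hpq, hp, B, hB, hwB⟩
  obtain ⟨M, hM⟩ := core_CG hΩ Fr hν hτ.1 hτ.2 hFH h2 hκν h3 (hU univ isOpen_univ) hc hs hpq hp
    hB hwB
  refine ⟨M, fun β r hβ0 hβi hr hle => hM β r hβ0 hβi hr ?_⟩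
  filter_upwards [hle] with t ht
  refine Eventually.mono (show ∀ᵐ x ∂((volume : Measure E3).restrict Ω), _ from ht) fun x hx => ?_
  have e1 := ballAvg_eq (r := r t) hm (y0 t) x
  have e2 := outer_eq (u1 t x)
  rw [← e1, ← e2]
  exact hx

end Pool.Agent.Y303.CG
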