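import Pool.Agent.Y303.CG.Tri
import Pool.Agent.Y303.RA.Core

/-!
Growth of a one-sided bound of the averaged gradient before a first singular time.
-/

set_option autoImplicit false
set_option linter.unusedSectionVars false

open MeasureTheory Set Filter Topology
open scoped InnerProductSpace ENNReal ContDiff NNReal

namespace Pool.Agent.Y303.CG

open H772R2.NS Pool.Agent.TH301.EQ
open H772R2.NSR (Frame prim_cont)
open Pool.Agent.W795.TQ
open Pool.Agent.Y303.RA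

/-- Young's inequality -/
theorem young_two {A x y ε θ : ℝ} (hA : 0 ≤ A) (hx : 0 ≤ x) (hy : 0 ≤ y) (hε : 0 < ε)
    (h0 : 0 ≤ θ) (h1 : θ < 1) :
    A * (x ^ θ * y ^ (1 - θ)) ^ 2
      ≤ ε * x ^ 2 + A ^ (1 / (1 - θ)) * ε ^ (-(θ / (1 - θ))) * y ^ 2 := by
  have h1' : 0 < 1 - θ := by linarith
  set P : ℝ := ε * x ^ 2 with hP
  set Q : ℝ := A ^ (1 / (1 - θ)) * ε ^ (-(θ / (1 - θ))) * y ^ 2 with hQ
  have hP0 : 0 ≤ P := by positivity
  have hQ0 : 0 ≤ Q := by positivity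
  have hg := Real.geom_mean_le_arith_mean2_weighted (w₁ := θ) (w₂ := 1 - θ) h0
    h1'.le hP0 hQ0 (by ring)
  have e1 : P ^ θ = ε ^ θ * (x ^ θ) ^ 2 := by
    rw [hP, Real.mul_rpow hε.le (by positivity), ← Real.rpow_natCast x 2,
      ← Real.rpow_natCast (x ^ θ) 2, ← Real.rpow_mul hx, ← Real.rpow_mul hx]
    congr 2
    ring
  have e2 : Q ^ (1 - θ) = A * ε ^ (-θ) * (y ^ (1 - θ)) ^ 2 := by
    rw [hQ, Real.mul_rpow (by positivity) (by positivity), Real.mul_rpow (by positivity)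
      (by positivity), ← Real.rpow_mul hA, ← Real.rpow_mul hε.le, ← Real.rpow_natCast y 2,
      ← Real.rpow_natCast (y ^ (1 - θ)) 2, ← Real.rpow_mul hy, ← Real.rpow_mul hy]
    have k1 : 1 / (1 - θ) * (1 - θ) = 1 := by field_simp
    have k2 : -(θ / (1 - θ)) * (1 - θ) = -θ := by field_simp
    rw [k1, k2, Real.rpow_one]
    congr 2
    ring
  have e3 : P ^ θ * Q ^ (1 - θ) = A * (x ^ θ * y ^ (1 - θ)) ^ 2 := by
    rw [e1, e2]
    have : ε ^ θ * ε ^ (-θ) = 1 := by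
      rw [← Real.rpow_add hε, add_neg_cancel, Real.rpow_zero]
    calc ε ^ θ * (x ^ θ) ^ 2 * (A * ε ^ (-θ) * (y ^ (1 - θ)) ^ 2)
        = (ε ^ θ * ε ^ (-θ)) * (A * (x ^ θ * y ^ (1 - θ)) ^ 2) := by ring
      _ = _ := by rw [this, one_mul]
  rw [e3] at hg
  calc A * (x ^ θ * y ^ (1 - θ)) ^ 2 ≤ θ * P + (1 - θ) * Q := hg
    _ ≤ 1 * P + 1 * Q := by
        gcongr
        linarith
    _ = P + Q := by ring

variable {Ω : Set E3} {C ν T τ κ : ℝ} {F F1 : ℝ → L2M Ω} {v v1 : ℝ → L2V Ω} {z z1 : ℝ → L2M Ω}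

/-- the product with a function of a Lebesgue space -/
theorem w_prod (hΩ : MeasurableSet Ω) {p : L2V Ω × L2M Ω}
    (hp : p ∈ graphW Ω) {w : E3 → ℝ} (hw : AEStronglyMeasurable w (volume.restrict Ω))
    {q : ℝ≥0∞} {θ B : ℝ} (hq : 3 ≤ q) (hθ : θ = (3 / q).toReal) (hθ1 : θ ≤ 1) (hB : 0 ≤ B)
    (hwB : eLpNorm w q (volume.restrict Ω) ≤ ENNReal.ofReal B) :
    Integrable (fun x => (w x * ‖p.1 x‖) ^ 2) (volume.restrict Ω) ∧
    ∫ x in Ω, (w x * ‖p.1 x‖) ^ 2 ≤ (B * (‖p.1‖ ^ (1 - θ) * ((CS : ℝ) * ‖p.2‖) ^ θ)) ^ 2 := by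
  have hθ0 : 0 ≤ θ := by rw [hθ]; exact ENNReal.toReal_nonneg
  have h1 := prod_le (μ := volume.restrict Ω) hw (Lp.aestronglyMeasurable p.1) hq hθ
  have h6 := six_le hΩ hp
  have h2 : eLpNorm (fun x => w x * ‖p.1 x‖) 2 (volume.restrict Ω)
      ≤ ENNReal.ofReal B * (‖p.1‖ₑ ^ (1 - θ) * ((CS : ℝ≥0∞) * ‖p.2‖ₑ) ^ θ) := by
    refine h1.trans ?_
    gcongr
    rw [Lp.enorm_def]
  have hfin : ENNReal.ofReal B * (‖p.1‖ₑ ^ (1 - θ) * ((CS : ℝ≥0∞) * ‖p.2‖ₑ) ^ θ) < ⊤ := by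
    refine ENNReal.mul_lt_top ENNReal.ofReal_lt_top (ENNReal.mul_lt_top ?_ ?_)
    · exact ENNReal.rpow_lt_top_of_nonneg (by linarith) enorm_ne_top
    · exact ENNReal.rpow_lt_top_of_nonneg hθ0 (ENNReal.mul_ne_top (by simp) enorm_ne_top)
  have hmem : MemLp (fun x => w x * ‖p.1 x‖) 2 (volume.restrict Ω) :=
    ⟨hw.mul (Lp.aestronglyMeasurable p.1).norm, h2.trans_lt hfin⟩
  have hsqi := (memLp_two_iff_integrable_sq hmem.aestronglyMeasurable).mp hmem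
  have h4 : ∫ x in Ω, (w x * ‖p.1 x‖) ^ 2
      = (eLpNorm (fun x => w x * ‖p.1 x‖) 2 (volume.restrict Ω)).toReal ^ 2 := by
    rw [← Lp.norm_toLp _ hmem, ← real_inner_self_eq_norm_sq, L2.inner_def]
    apply integral_congr_ae
    filter_upwards [hmem.coeFn_toLp] with x hx
    rw [hx, real_inner_self_eq_norm_sq, Real.norm_eq_abs, sq_abs]
  have h5 : (eLpNorm (fun x => w x * ‖p.1 x‖) 2 (volume.restrict Ω)).toReal
      ≤ B * (‖p.1‖ ^ (1 - θ) * ((CS : ℝ) * ‖p.2‖) ^ θ) := by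
    have := ENNReal.toReal_mono hfin.ne h2
    rw [ENNReal.toReal_mul, ENNReal.toReal_ofReal hB, ENNReal.toReal_mul, ← ENNReal.toReal_rpow,
      ← ENNReal.toReal_rpow, ENNReal.toReal_mul, toReal_enorm, toReal_enorm,
      ENNReal.coe_toReal] at this
    exact this
  refine ⟨hsqi, ?_⟩
  rw [h4]
  exact pow_le_pow_left₀ ENNReal.toReal_nonneg h5 2

/-- growth of the one-sided bounds of the averaged gradient along the acceleration -/
theorem core_CG (hΩ : IsOpen Ω) (Fr : Frame (graphW Ω) (tensL (Ω := Ω)) C) (hν : 0 < ν)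
    (hτ : 0 < τ) (hτT : τ ≤ T) (hF : FH T F F1)
    (hS : ∀ t ∈ Ioo 0 τ, Str (graphW Ω) (tensL (Ω := Ω)) ν t F v v1 z z1) (hκ : 0 < κ)
    (hrate : ∀ t0 < τ, ¬ ∀ᵐ t ∂(volume.restrict (Ioo t0 τ)),
      ‖v1 t‖ ≤ κ * (τ - t) ^ (-(3 / 4) : ℝ)) {c : ℝ}
    (Un : Univ (graphW (univ : Set E3)) (tensL (Ω := univ)) c) (hc : 0 < c)
    {s : ℝ} (hs : s ∈ Ico 0 τ) {p q : ℝ≥0∞}
    (hpq : 2 / p + 3 / q = 1) (hp : p ≠ ⊤) {w : ℝ → E3 → ℝ} {B : ℝ → ℝ}
    (hB : MemLp B p (volume.restrict (Ioo s τ)))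
    (hwB : ∀ᵐ t ∂(volume.restrict (Ioo s τ)), AEStronglyMeasurable (w t) (volume.restrict Ω) ∧
      eLpNorm (w t) q (volume.restrict Ω) ≤ ENNReal.ofReal (B t)) :
    ∃ M : ℝ, ∀ β r : ℝ → ℝ, (∀ t, 0 ≤ β t) → (∀ t ∈ Ioo s τ, IntegrableOn β (Ioc s t)) →
      (∀ t ∈ Ioo s τ, 0 < r t ∧ r t * ‖z t‖ ^ 2 ≤ 1 / (8 * c ^ 2) * ν ^ 2) →
      (∀ᵐ t ∂(volume.restrict (Ioo s τ)), ∀ᵐ x ∂(volume.restrict Ω),
        -⟪Av (r t) (Ω.indicator (z t : E3 → M3)) x, tens (v1 t x)⟫_ℝ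
          ≤ (β t + (w t x) ^ 2) * ‖v1 t x‖ ^ 2) →
      ∀ t0 < τ, ∃ t ∈ Ioo t0 τ, s < t ∧
        3 / 4 * Real.log (1 / (τ - t)) - M ≤ ∫ r in s..t, β r := by
  have hm := hΩ.measurableSet
  -- the exponents
  set θ : ℝ := (3 / q).toReal with hθ
  have h3q : 3 / q ≤ 1 := by rw [← hpq]; exact le_add_self
  have h2p : 2 / p ≤ 1 := by rw [← hpq]; exact le_self_add
  have hq3 : 3 ≤ q := by
    by_contra h
    rw [not_le] at h
    have : 1 < 3 / q := by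
      rw [ENNReal.lt_div_iff_mul_lt (Or.inr (by simp)) (Or.inl (h.trans (by simp)).ne), one_mul]
      exact h
    exact absurd h3q (not_le.2 this)
  have hθ0 : 0 ≤ θ := ENNReal.toReal_nonneg
  have hsum : (2 / p).toReal + θ = 1 := by
    rw [hθ, ← ENNReal.toReal_add (h2p.trans_lt (by simp)).ne (h3q.trans_lt (by simp)).ne, hpq]
    simp
  have hp0 : p ≠ 0 := by
    intro h
    rw [h, ENNReal.div_zero (by simp)] at h2p
    exact absurd h2p (by simp)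
  have hpr : 0 < p.toReal := ENNReal.toReal_pos hp0 hp
  have h2pr : (2 / p).toReal = 2 / p.toReal := by rw [ENNReal.toReal_div]; simp
  have hθ1 : θ < 1 := by
    have : 0 < 2 / p.toReal := by positivity
    rw [h2pr] at hsum
    linarith
  have hpθ : p.toReal = 2 / (1 - θ) := by
    have : 1 - θ = 2 / p.toReal := by rw [← h2pr]; linarith
    rw [this]
    field_simp
  -- the coefficient
  set D : ℝ := (((CS : ℝ) ^ θ) ^ 2) ^ (1 / (1 - θ)) * (ν / 4) ^ (-(θ / (1 - θ))) with hD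
  have hD0 : 0 ≤ D := by positivity
  set Λ : ℝ → ℝ := fun t => D * |B t| ^ p.toReal with hΛ
  have hΛi : IntegrableOn Λ (Ioo s τ) := by
    have := hB.integrable_norm_rpow hp0 hp
    exact this.const_mul D
  have hΛ0 : ∀ t, 0 ≤ Λ t := fun t => by simp only [hΛ]; positivity
  obtain ⟨M, hM⟩ := growth_Λ Fr (hom_tensL hm) hν hτ hτT hF hS hκ hrate hs
    (δ := 1 / 4) (by norm_num)
  set I : ℝ := ∫ x in Ioo s τ, Λ x with hI
  have hIb : ∀ t ∈ Ioo s τ, ∫ r in s..t, Λ r ≤ I := by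
    intro t ht
    rw [intervalIntegral.integral_of_le ht.1.le, hI]
    refine setIntegral_mono_set hΛi (Eventually.of_forall hΛ0) ?_
    have : Ioc s t ⊆ Ioo s τ := fun x hx => ⟨hx.1, hx.2.trans_lt ht.2⟩
    exact this.eventuallyLE
  refine ⟨M + I, ?_⟩
  intro β r hβ0 hβi hr hle t0 ht0
  have hΛi' : ∀ t ∈ Ioo s τ, IntegrableOn Λ (Ioc s t) := fun t ht =>
    hΛi.mono_set fun x hx => ⟨hx.1, hx.2.trans_lt ht.2⟩
  obtain ⟨t, ht, hst, hkey⟩ := hM (fun t => β t + Λ t) (fun t => add_nonneg (hβ0 t) (hΛ0 t))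
    (fun t ht => (hβi t ht).add (hΛi' t ht)) (by
      filter_upwards [hle, hwB, mem_ae' hτ hS hs.1, ae_restrict_mem measurableSet_Ioo]
        with t h1 h2 h3 htI
      obtain ⟨hr0, hrz⟩ := hr t htI
      have hwB' : eLpNorm (w t) q (volume.restrict Ω) ≤ ENNReal.ofReal |B t| :=
        h2.2.trans (ENNReal.ofReal_le_ofReal (le_abs_self _))
      obtain ⟨k1, k2⟩ := w_prod (p := (v1 t, z1 t)) hm h3.2 h2.1 hq3 hθ hθ1.le
        (abs_nonneg (B t)) hwB'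
      have hsq : Integrable (fun x => ‖v1 t x‖ ^ 2) (volume.restrict Ω) :=
        (memLp_two_iff_integrable_sq_norm (Lp.aestronglyMeasurable _)).mp (Lp.memLp (v1 t))
      have hint : Integrable (fun x => β t * ‖v1 t x‖ ^ 2 + (w t x * ‖v1 t x‖) ^ 2)
          (volume.restrict Ω) := (hsq.const_mul _).add k1
      have h4 := tri_avg (p := (v1 t, z1 t)) (q := (v t, z t)) hm hr0 Un h3.2 h3.1 hint (by
        filter_upwards [h1] with x hx
        refine hx.trans (le_of_eq ?_)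
        ring)
      have h5 : ∫ x in Ω, (β t * ‖v1 t x‖ ^ 2 + (w t x * ‖v1 t x‖) ^ 2)
          ≤ β t * ‖v1 t‖ ^ 2 + (|B t| * (‖v1 t‖ ^ (1 - θ) * ((CS : ℝ) * ‖z1 t‖) ^ θ)) ^ 2 := by
        rw [integral_add (hsq.const_mul _) k1, integral_const_mul]
        refine add_le_add (le_of_eq ?_) k2
        congr 1
        rw [← real_inner_self_eq_norm_sq (v1 t), L2.inner_def]
        refine integral_congr_ae (Eventually.of_forall fun x => ?_)
        exact (real_inner_self_eq_norm_sq _).symm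
      have h6 : (|B t| * (‖v1 t‖ ^ (1 - θ) * ((CS : ℝ) * ‖z1 t‖) ^ θ)) ^ 2
          = (|B t| * (CS : ℝ) ^ θ) ^ 2 * (‖z1 t‖ ^ θ * ‖v1 t‖ ^ (1 - θ)) ^ 2 := by
        rw [Real.mul_rpow (by positivity) (norm_nonneg _)]
        ring
      have h8 := young_two (A := (|B t| * (CS : ℝ) ^ θ) ^ 2) (x := ‖z1 t‖) (y := ‖v1 t‖)
        (ε := ν / 4) (by positivity) (norm_nonneg _) (norm_nonneg _) (by positivity) hθ0 hθ1
      have e2 : ((|B t| * (CS : ℝ) ^ θ) ^ 2) ^ (1 / (1 - θ)) * (ν / 4) ^ (-(θ / (1 - θ)))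
          = Λ t := by
        simp only [hΛ, hD]
        have e3 : (|B t| ^ 2) ^ (1 / (1 - θ)) = |B t| ^ p.toReal := by
          rw [← Real.rpow_natCast, ← Real.rpow_mul (abs_nonneg _), hpθ]
          congr 1
          push_cast
          ring
        rw [mul_pow, Real.mul_rpow (by positivity) (by positivity), e3]
        ring
      rw [e2] at h8
      have h9 : c * √(2 * r t) * ‖z1 t‖ ^ 2 * ‖z t‖ ≤ ν / 2 * ‖z1 t‖ ^ 2 := by
        have h10 : √(2 * r t) * ‖z t‖ ≤ ν / (2 * c) := by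
          rw [← Real.sqrt_sq (norm_nonneg (z t)), ← Real.sqrt_mul (by positivity),
            ← Real.sqrt_sq (show 0 ≤ ν / (2 * c) by positivity)]
          refine Real.sqrt_le_sqrt ?_
          calc 2 * r t * ‖z t‖ ^ 2 = 2 * (r t * ‖z t‖ ^ 2) := by ring
            _ ≤ 2 * (1 / (8 * c ^ 2) * ν ^ 2) := by gcongr
            _ = (ν / (2 * c)) ^ 2 := by field_simp; ring
        calc c * √(2 * r t) * ‖z1 t‖ ^ 2 * ‖z t‖
            = (√(2 * r t) * ‖z t‖) * (c * ‖z1 t‖ ^ 2) := by ring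
          _ ≤ ν / (2 * c) * (c * ‖z1 t‖ ^ 2) := by gcongr
          _ = ν / 2 * ‖z1 t‖ ^ 2 := by field_simp
      have e3 : (1 - 1 / 4) * ν * ‖z1 t‖ ^ 2 = ν / 2 * ‖z1 t‖ ^ 2 + ν / 4 * ‖z1 t‖ ^ 2 := by ring
      simp only at h4
      rw [e3]
      linarith) t0 ht0
  refine ⟨t, ht, hst, ?_⟩
  have hi1 : IntervalIntegrable β volume s t :=
    (intervalIntegrable_iff_integrableOn_Ioc_of_le hst.le).2 (hβi t ⟨hst, ht.2⟩)
  have hi2 : IntervalIntegrable Λ volume s t :=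
    (intervalIntegrable_iff_integrableOn_Ioc_of_le hst.le).2 (hΛi' t ⟨hst, ht.2⟩)
  rw [intervalIntegral.integral_add hi1 hi2] at hkey
  have := hIb t ⟨hst, ht.2⟩
  linarith

end Pool.Agent.Y303.CG
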