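import Pool.Agent.Y303.CG.Avg
import Pool.Agent.W52.TQ.Univ
import Pool.Agent.H772R2.NSR.Final

/-!
The trilinear form with averages over balls.
-/

set_option autoImplicit false
set_option linter.unusedSectionVars false

open MeasureTheory Set Filter Topology Metric
open scoped InnerProductSpace ENNReal ContDiff NNReal

namespace Pool.Agent.Y303.CG

open H772R2.NS
open Pool.Agent.W795.TQ (Univ)
open Pool.Agent.W52.TQ (eLp2_sq graphW_le)

variable {Ω : Set E3} {r : ℝ}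

theorem ind_meas (hm : MeasurableSet Ω) (z : L2M Ω) :
    StronglyMeasurable (Ω.indicator (z : E3 → M3)) := (Lp.stronglyMeasurable z).indicator hm

theorem ind_memLp (hm : MeasurableSet Ω) (z : L2M Ω) :
    MemLp (Ω.indicator (z : E3 → M3)) 2 volume :=
  (memLp_indicator_iff_restrict hm).2 (Lp.memLp z)

theorem ind_int (hm : MeasurableSet Ω) (z : L2M Ω) (x : E3) :
    Integrable (fun t => Ω.indicator (z : E3 → M3) (x - t)) (nu r) := by
  by_cases hr : 0 < r
  · have h1 : MemLp (fun t => Ω.indicator (z : E3 → M3) (x - t)) 2 volume :=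
      (ind_memLp hm z).comp_measurePreserving (Measure.measurePreserving_sub_left volume x)
    have h2 : MemLp (fun t => Ω.indicator (z : E3 → M3) (x - t)) 2
        (volume.restrict (ball (0 : E3) r)) := h1.restrict _
    have h3 : IsFiniteMeasure (volume.restrict (ball (0 : E3) r)) :=
      ⟨by rw [Measure.restrict_apply_univ]; exact measure_ball_lt_top⟩
    unfold nu
    exact (h2.integrable (by norm_num)).smul_measure
      (ENNReal.inv_ne_top.2 (measure_ball_pos volume _ hr).ne')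
  · have : nu r = 0 := by
      unfold nu
      rw [ball_eq_empty.2 (not_lt.1 hr)]
      simp
    rw [this]
    exact integrable_zero_measure

theorem Av_memLp (hm : MeasurableSet Ω) (hr : 0 < r) (z : L2M Ω) :
    MemLp (Av r (Ω.indicator (z : E3 → M3))) 2 (volume.restrict Ω) := by
  refine ⟨(Av_meas (ind_meas hm z)).aestronglyMeasurable, ?_⟩
  have h1 := Av_L2 hr (ind_meas hm z)
  have h2 : (eLpNorm (Av r (Ω.indicator (z : E3 → M3))) 2 (volume.restrict Ω)) ^ 2
      ≤ (eLpNorm (Ω.indicator (z : E3 → M3)) 2 volume) ^ 2 := by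
    rw [← eLp2_sq, ← eLp2_sq]
    exact (setLIntegral_le_lintegral _ _).trans h1
  have h3 := (ind_memLp hm z).eLpNorm_lt_top
  by_contra hcon
  rw [not_lt, top_le_iff] at hcon
  rw [hcon, ENNReal.top_pow (by norm_num), top_le_iff] at h2
  exact (ENNReal.pow_lt_top h3 (n := 2)).ne h2

/-- the average over balls as an operator -/
noncomputable def AL (hm : MeasurableSet Ω) (hr : 0 < r) (z : L2M Ω) : L2M Ω :=
  (Av_memLp hm hr z).toLp

theorem AL_coe (hm : MeasurableSet Ω) (hr : 0 < r) (z : L2M Ω) :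
    (AL hm hr z : E3 → M3) =ᵐ[volume.restrict Ω] Av r (Ω.indicator (z : E3 → M3)) :=
  (Av_memLp hm hr z).coeFn_toLp

theorem norm_AL (hm : MeasurableSet Ω) (hr : 0 < r) (z : L2M Ω) : ‖AL hm hr z‖ ≤ ‖z‖ := by
  rw [Lp.norm_def, Lp.norm_def]
  refine ENNReal.toReal_mono (Lp.eLpNorm_ne_top z) ?_
  rw [eLpNorm_congr_ae (AL_coe hm hr z)]
  have h2 : (eLpNorm (Av r (Ω.indicator (z : E3 → M3))) 2 (volume.restrict Ω)) ^ 2
      ≤ (eLpNorm z 2 (volume.restrict Ω)) ^ 2 := by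
    rw [← eLpNorm_indicator_eq_eLpNorm_restrict hm (f := (z : E3 → M3)), ← eLp2_sq, ← eLp2_sq]
    exact (setLIntegral_le_lintegral _ _).trans (Av_L2 hr (ind_meas hm z))
  exact (ENNReal.pow_le_pow_left_iff (by norm_num)).1 h2

theorem AL_sub (hm : MeasurableSet Ω) (hr : 0 < r) (z z' : L2M Ω) :
    AL hm hr (z - z') = AL hm hr z - AL hm hr z' := by
  apply Lp.ext
  have h0 : Ω.indicator ((z - z' : L2M Ω) : E3 → M3) =ᵐ[volume]
      fun x => Ω.indicator (z : E3 → M3) x - Ω.indicator (z' : E3 → M3) x := by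
    have h1 := Lp.coeFn_sub z z'
    rw [Filter.EventuallyEq, ae_restrict_iff' hm] at h1
    filter_upwards [h1] with x hx
    by_cases h : x ∈ Ω
    · rw [indicator_of_mem h, indicator_of_mem h, indicator_of_mem h, hx h]
      rfl
    · rw [indicator_of_notMem h, indicator_of_notMem h, indicator_of_notMem h, sub_zero]
  filter_upwards [AL_coe hm hr (z - z'), AL_coe hm hr z, AL_coe hm hr z',
    Lp.coeFn_sub (AL hm hr z) (AL hm hr z')] with x k1 k2 k3 k4
  rw [k1, k4, Pi.sub_apply, k2, k3, Av_congr h0]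
  unfold Av
  exact integral_sub (ind_int hm z x) (ind_int hm z' x)

theorem AL_cont (hm : MeasurableSet Ω) (hr : 0 < r) : Continuous (AL hm hr) := by
  rw [continuous_iff_continuousAt]
  intro z
  rw [ContinuousAt, tendsto_iff_norm_sub_tendsto_zero]
  refine squeeze_zero (fun _ => norm_nonneg _) (fun y => ?_)
    (tendsto_iff_norm_sub_tendsto_zero.1 (tendsto_id (x := 𝓝 z)))
  rw [← AL_sub]
  exact norm_AL hm hr _

/-- for test fields -/
theorem tri_test (hm : MeasurableSet Ω) (hr : 0 < r) {c : ℝ}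
    (Un : Univ (graphW (univ : Set E3)) (tensL (Ω := univ)) c) {p q : L2V Ω × L2M Ω}
    (hp : p ∈ preW Ω) (hq : q ∈ preW Ω) :
    |⟪tensL p.1, q.2⟫_ℝ - ⟪tensL p.1, AL hm hr q.2⟫_ℝ|
      ≤ c * √(2 * r) * ‖p.2‖ ^ 2 * ‖q.2‖ := by
  have hpW : p ∈ graphW Ω := Submodule.le_topologicalClosure _ hp
  obtain ⟨φ, h1, h2, h3⟩ := hp
  obtain ⟨ψ, k1, k2, k3⟩ := hq
  set χ : E3 → E3 := ψ - Av r ψ with hχ
  have hχt : IsTest (univ : Set E3) χ := test_sub_Av k1
  have hφu : IsTest (univ : Set E3) φ := ⟨h1.smooth, h1.compact, subset_univ _, h1.divfree⟩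
  have hoff : ∀ x, x ∉ Ω → φ x = 0 := fun x hx =>
    image_eq_zero_of_notMem_tsupport fun hc => hx (h1.supp hc)
  have hoffψ : ∀ x, x ∉ Ω → jac ψ x = 0 := fun x hx =>
    image_eq_zero_of_notMem_tsupport fun hc => hx (k1.supp (tsupport_jac_subset hc))
  -- the pairs on the whole space
  have hex : ∀ f : E3 → E3, IsTest (univ : Set E3) f → ∃ P : L2V (univ : Set E3) × L2M (univ : Set E3),
      P ∈ graphW (univ : Set E3) ∧ P.1 =ᵐ[volume.restrict univ] f ∧
      P.2 =ᵐ[volume.restrict univ] jac f := by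
    intro f hf
    have g1 : MemLp f 2 (volume.restrict univ) := (hf.memLp 2).restrict _
    have g2 : MemLp (jac f) 2 (volume.restrict univ) := (hf.jac_memLp 2).restrict _
    exact ⟨(g1.toLp f, g2.toLp _), Submodule.le_topologicalClosure _
      ⟨f, hf, g1.coeFn_toLp, g2.coeFn_toLp⟩, g1.coeFn_toLp, g2.coeFn_toLp⟩
  obtain ⟨P, hPW, P1, P2⟩ := hex φ hφu
  obtain ⟨D, hDW, D1, D2⟩ := hex χ hχt
  have htri := Un.tri P hPW D hDW
  -- the left-hand side
  have hind : Ω.indicator (q.2 : E3 → M3) =ᵐ[volume] jac ψ := by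
    rw [Filter.EventuallyEq, ae_restrict_iff' hm] at k3
    filter_upwards [k3] with x hx
    by_cases h : x ∈ Ω
    · rw [indicator_of_mem h, hx h]
    · rw [indicator_of_notMem h, hoffψ x h]
  have e1 : ⟪tensL p.1, q.2⟫_ℝ - ⟪tensL p.1, AL hm hr q.2⟫_ℝ = ⟪tensL P.1, D.2⟫_ℝ := by
    rw [← inner_sub_right, L2.inner_def, L2.inner_def]
    have hsup : ∀ x, x ∉ Ω → ⟪tens (φ x), jac χ x⟫_ℝ = 0 := by
      intro x hx
      have : tens (0 : E3) = 0 := by
        have := norm_tens 0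
        rw [norm_zero] at this
        simpa using this
      rw [hoff x hx, this, inner_zero_left]
    calc ∫ x in Ω, ⟪tensL p.1 x, (q.2 - AL hm hr q.2 : L2M Ω) x⟫_ℝ
        = ∫ x in Ω, ⟪tens (φ x), jac χ x⟫_ℝ := by
          apply integral_congr_ae
          filter_upwards [tensL_coe hm hpW, h2, k3, Lp.coeFn_sub q.2 (AL hm hr q.2),
            AL_coe hm hr q.2] with x a1 a2 a3 a4 a5
          rw [a1, a2, a4, Pi.sub_apply, a3, a5, hχ, jac_sub_Av k1.smooth k1.compact, Av_congr hind]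
      _ = ∫ x, ⟪tens (φ x), jac χ x⟫_ℝ := by
          rw [← integral_indicator hm]
          refine integral_congr_ae (Eventually.of_forall fun x => ?_)
          simp only
          by_cases h : x ∈ Ω
          · rw [indicator_of_mem h]
          · rw [indicator_of_notMem h, hsup x h]
      _ = ∫ x in univ, ⟪tensL P.1 x, D.2 x⟫_ℝ := by
          rw [← setIntegral_univ]
          apply integral_congr_ae
          filter_upwards [tensL_coe MeasurableSet.univ hPW, P1, D2] with x a1 a2 a3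
          rw [a1, a2, a3]
  -- the norms
  have n1 : ‖P.2‖ = ‖p.2‖ := by
    rw [Lp.norm_def, Lp.norm_def, eLpNorm_congr_ae P2, eLpNorm_congr_ae h3,
      hφu.eLpNorm_jac_restrict MeasurableSet.univ, h1.eLpNorm_jac_restrict hm]
  have nj : eLpNorm (jac ψ) 2 (volume : Measure E3) = ‖q.2‖ₑ := by
    rw [Lp.enorm_def, eLpNorm_congr_ae k3, k1.eLpNorm_jac_restrict hm]
  have n2 : ‖D.1‖ ≤ r * ‖q.2‖ := by
    have h4 : ‖D.1‖ₑ ≤ ENNReal.ofReal r * ‖q.2‖ₑ := by
      refine (ENNReal.pow_le_pow_left_iff (n := 2) (by norm_num)).1 ?_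
      rw [mul_pow, ← nj, ← eLp2_sq, Lp.enorm_def, ← eLp2_sq]
      refine le_trans (le_of_eq ?_) (Av_diff_L2 hr k1.smooth k1.compact)
      rw [← setLIntegral_univ (f := fun x => ‖ψ x - Av r ψ x‖ₑ ^ 2)]
      refine lintegral_congr_ae ?_
      filter_upwards [D1] with x hx
      rw [hx]
      rfl
    have h5 := ENNReal.toReal_mono (by finiteness) h4
    rwa [ENNReal.toReal_mul, toReal_enorm, toReal_enorm, ENNReal.toReal_ofReal hr.le] at h5
  have n3 : ‖D.2‖ ≤ 2 * ‖q.2‖ := by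
    have h4 : ‖D.2‖ₑ ≤ ‖q.2‖ₑ + ‖q.2‖ₑ := by
      have h6 : jac χ = jac ψ - Av r (jac ψ) := by
        funext x
        rw [hχ, jac_sub_Av k1.smooth k1.compact]
        rfl
      have hjm : StronglyMeasurable (jac ψ) := (continuous_jac k1.smooth).stronglyMeasurable
      rw [Lp.enorm_def, eLpNorm_congr_ae D2, Measure.restrict_univ, h6]
      refine (eLpNorm_sub_le hjm.aestronglyMeasurable (Av_meas hjm).aestronglyMeasurable
        (by norm_num)).trans ?_
      rw [nj]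
      gcongr
      rw [← nj]
      refine (ENNReal.pow_le_pow_left_iff (n := 2) (by norm_num)).1 ?_
      rw [← eLp2_sq, ← eLp2_sq]
      exact Av_L2 hr hjm
    have h5 := ENNReal.toReal_mono (by finiteness) h4
    rw [ENNReal.toReal_add (by finiteness) (by finiteness), toReal_enorm, toReal_enorm] at h5
    linarith
  rw [e1]
  refine htri.trans ?_
  rw [n1]
  have hc0 := Un.c0
  have h7 : √‖D.1‖ * √‖D.2‖ ≤ √(2 * r) * ‖q.2‖ := by
    rw [← Real.sqrt_mul (norm_nonneg _)]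
    have h8 : ‖D.1‖ * ‖D.2‖ ≤ 2 * r * ‖q.2‖ ^ 2 := by
      calc ‖D.1‖ * ‖D.2‖ ≤ (r * ‖q.2‖) * (2 * ‖q.2‖) :=
            mul_le_mul n2 n3 (norm_nonneg _) (by positivity)
        _ = 2 * r * ‖q.2‖ ^ 2 := by ring
    refine (Real.sqrt_le_sqrt h8).trans (le_of_eq ?_)
    rw [Real.sqrt_mul (by positivity), Real.sqrt_sq (norm_nonneg _)]
  calc c * (‖p.2‖ ^ 2 * (√‖D.1‖ * √‖D.2‖)) ≤ c * (‖p.2‖ ^ 2 * (√(2 * r) * ‖q.2‖)) := by gcongr
    _ = c * √(2 * r) * ‖p.2‖ ^ 2 * ‖q.2‖ := by ring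

theorem tri_W (hm : MeasurableSet Ω) (hr : 0 < r) {c : ℝ}
    (Un : Univ (graphW (univ : Set E3)) (tensL (Ω := univ)) c) {p q : L2V Ω × L2M Ω}
    (hp : p ∈ graphW Ω) (hq : q ∈ graphW Ω) :
    |⟪tensL p.1, q.2⟫_ℝ - ⟪tensL p.1, AL hm hr q.2⟫_ℝ|
      ≤ c * √(2 * r) * ‖p.2‖ ^ 2 * ‖q.2‖ := by
  have h1 : ∀ p ∈ graphW Ω, ∀ q ∈ preW Ω, |⟪tensL p.1, q.2⟫_ℝ - ⟪tensL p.1, AL hm hr q.2⟫_ℝ|
      ≤ c * √(2 * r) * ‖p.2‖ ^ 2 * ‖q.2‖ := by
    intro p hp q hq
    have ht := tensL_continuousOn hm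
    refine graphW_le (fun p : L2V Ω × L2M Ω => |⟪tensL p.1, q.2⟫_ℝ - ⟪tensL p.1, AL hm hr q.2⟫_ℝ|)
      (fun p : L2V Ω × L2M Ω => c * √(2 * r) * ‖p.2‖ ^ 2 * ‖q.2‖) ?_ ?_
      (fun p' hp' => tri_test hm hr Un hp' hq) hp
    · exact ((ht.inner continuousOn_const).sub (ht.inner continuousOn_const)).abs
    · exact Continuous.continuousOn (by fun_prop)
  refine graphW_le (fun q : L2V Ω × L2M Ω => |⟪tensL p.1, q.2⟫_ℝ - ⟪tensL p.1, AL hm hr q.2⟫_ℝ|)
    (fun q : L2V Ω × L2M Ω => c * √(2 * r) * ‖p.2‖ ^ 2 * ‖q.2‖) ?_ ?_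
    (fun q' hq' => h1 p hp q' hq') hq
  · have hA : Continuous fun q : L2V Ω × L2M Ω => AL hm hr q.2 := (AL_cont hm hr).comp continuous_snd
    exact (((continuous_const.inner continuous_snd).sub (continuous_const.inner hA)).abs).continuousOn
  · exact Continuous.continuousOn (by fun_prop)

/-- the consequence of a one-sided bound of the averaged gradient -/
theorem tri_avg (hm : MeasurableSet Ω) (hr : 0 < r) {c : ℝ} {h : E3 → ℝ}
    (Un : Univ (graphW (univ : Set E3)) (tensL (Ω := univ)) c) {p q : L2V Ω × L2M Ω}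
    (hp : p ∈ graphW Ω) (hq : q ∈ graphW Ω) (hi : Integrable h (volume.restrict Ω))
    (hβ : ∀ᵐ x ∂(volume.restrict Ω),
      -⟪Av r (Ω.indicator (q.2 : E3 → M3)) x, tens (p.1 x)⟫_ℝ ≤ h x) :
    -⟪tensL p.1, q.2⟫_ℝ ≤ c * √(2 * r) * ‖p.2‖ ^ 2 * ‖q.2‖ + ∫ x in Ω, h x := by
  have h1 := tri_W hm hr Un hp hq
  have h2 : -⟪tensL p.1, AL hm hr q.2⟫_ℝ ≤ ∫ x in Ω, h x := by
    rw [real_inner_comm, L2.inner_def, ← integral_neg]
    refine integral_mono_ae (L2.integrable_inner _ _).neg hi ?_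
    filter_upwards [hβ, AL_coe hm hr q.2, tensL_coe hm hp] with x a1 a2 a3
    rw [a2, a3]
    exact a1
  have h3 := (abs_le.1 h1).1
  linarith

end Pool.Agent.Y303.CG
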